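import Pool.Agent.Helper76.TW.Goals
import Pool.Agent.Helper88.TU.Size
import Pool.Agent.Helper88.CG.VP
import Pool.Agent.Helper33.RR.GT
import Pool.Agent.Helper59.RR.PW
import Pool.Agent.Helper74.PP.TL
import Pool.Agent.Helper24.PP.MA

/-!
# Packet TW-BT2: upper bounds for `AT`, with and without the weight, at one and two points

All three parts are the case `#J = 1, 2` of one statement (`main` below), the first one with `P = ∅`.
Adapted from `Pool/Agent/Helper46/TU/PB.lean` (helper46).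
-/

set_option autoImplicit false

open Finset Filter Topology

open scoped Classical

namespace Pool.Agent.Helper14.TW

open Pool.Agent.Helper88.PP (pr Rg om Sf SS uu vv ee LA VV QQ cost)
open Pool.Agent.Helper88.RR (gg ab TB nz Db VM)
open Pool.Agent.Helper88.GM (NI XI)
open Pool.Agent.Helper88.CG (qE mE)
open Pool.Agent.Helper88.TU (Su size)
open Pool.Agent.Helper76.TW
open Pool.Agent.Helper33.RR (om_nonneg VM_nonneg VM_ge_one VV_nonneg ab_nonneg
  card_labels prod_labels gg_nonneg gg_succ)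

/-- the label function on `P ∪ J` -/
noncomputable def gl {P J : Finset ℕ} (r : P → ℕ) (s : J → ℕ) (i : ℕ) : ℕ :=
  if h : i ∈ J then s ⟨i, h⟩ else if h : i ∈ P then r ⟨i, h⟩ else 0

theorem gl_J {P J : Finset ℕ} (r : P → ℕ) (s : J → ℕ) (i : J) : gl r s i = s i := by
  unfold gl
  rw [dif_pos i.2]

theorem gl_P {P J : Finset ℕ} (h : Disjoint P J) (r : P → ℕ) (s : J → ℕ) (i : P) :
    gl r s i = r i := by
  unfold gl
  rw [dif_neg (Finset.disjoint_left.1 h i.2), dif_pos i.2]

theorem prod_gl {M : Type*} [CommMonoid M] {P J : Finset ℕ} (h : Disjoint P J) (F : ℕ → ℕ → M)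
    (r : P → ℕ) (s : J → ℕ) :
    ∏ i : (P ∪ J : Finset ℕ), F (gl r s i) i = (∏ i : P, F (r i) i) * ∏ i : J, F (s i) i := by
  rw [Finset.prod_coe_sort (P ∪ J) (fun i => F (gl r s i) i), Finset.prod_union h]
  congr 1
  · rw [← Finset.prod_coe_sort P]
    exact Finset.prod_congr rfl fun i _ => by rw [gl_P h]
  · rw [← Finset.prod_coe_sort J]
    exact Finset.prod_congr rfl fun i _ => by rw [gl_J]

theorem nz_gl {P J : Finset ℕ} (h : Disjoint P J) (r : P → ℕ) (s : J → ℕ)
    (hs : ∀ i, s i ≠ 0) :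
    nz (fun i : (P ∪ J : Finset ℕ) => gl r s i) = nz r + J.card := by
  unfold nz
  rw [Finset.card_filter, Finset.card_filter]
  have h1 := prod_gl (M := Multiplicative ℕ) h
    (fun a _ => Multiplicative.ofAdd (if a ≠ 0 then 1 else 0)) r s
  have h2 : (∑ i : (P ∪ J : Finset ℕ), if gl r s i ≠ 0 then 1 else 0) =
      (∑ i : P, if r i ≠ 0 then 1 else 0) + ∑ i : J, if s i ≠ 0 then 1 else 0 := h1
  rw [h2]
  congr 1
  rw [Finset.sum_congr rfl (fun i _ => if_pos (hs i)), Finset.sum_const, Finset.card_univ,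
    Fintype.card_coe, smul_eq_mul, mul_one]

/-- the coefficient -/
noncomputable def cf (J : Finset ℕ) (m q z V i v : ℕ) : ℝ :=
  if i ∈ J then 1 / (VM V z * (Nat.totient v : ℝ)) else if v = 0 then 1 else - ab m q z v

theorem W2_eq {m q M z y : ℕ} {P : Finset ℕ} (n : ℕ) :
    W2 m q M z y P n = ∑ r ∈ TB m q M z P,
      (∏ i : P, (if r i = 0 then 1 else - ab m q z (r i))) *
        ∏ i : P, vR (R2 y z) (r i) (n + (i : ℕ)) := by
  unfold W2
  refine Finset.sum_congr rfl fun r _ => ?_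
  rw [Finset.prod_mul_distrib]

/-- sizes -/
theorem sizes (c : ℝ) (hc : 0 < c) : ∃ E0 : ℕ, ∀ E : ℕ, E0 ≤ E →
    Real.exp (-(c * E)) ≤ 1 / (E : ℝ) ^ 2 := by
  have h1 : ∀ᶠ w : ℝ in atTop, w ^ 2 * Real.exp (-w) < c ^ 2 :=
    (Real.tendsto_pow_mul_exp_neg_atTop_nhds_zero 2).eventually (gt_mem_nhds (by positivity))
  obtain ⟨w0, hw0⟩ := eventually_atTop.1 h1
  refine ⟨max ⌈w0 / c⌉₊ 1, fun E hE => ?_⟩
  have hE1 : (1 : ℝ) ≤ E := by exact_mod_cast (le_max_right _ _).trans hE
  have hE2 : w0 / c ≤ E := (Nat.le_ceil _).trans (by exact_mod_cast (le_max_left _ _).trans hE)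
  rw [div_le_iff₀ hc] at hE2
  have h2 := hw0 (c * E) (by linarith)
  have hE0 : (0 : ℝ) < E := by linarith
  rw [le_div_iff₀ (by positivity)]
  have h3 : c ^ 2 * (Real.exp (-(c * E)) * (E : ℝ) ^ 2) ≤ c ^ 2 * 1 := by
    calc c ^ 2 * (Real.exp (-(c * E)) * (E : ℝ) ^ 2) = (c * E) ^ 2 * Real.exp (-(c * E)) := by ring
      _ ≤ c ^ 2 * 1 := by linarith
  exact le_of_mul_le_mul_left h3 (by positivity)

theorem gg_two {y z k : ℕ} : ∀ a : ℕ, k + 2 * a ≤ y →
    gg y z (k + 2 * a) ≤ (om y z ^ 2) ^ a * gg y z k := by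
  intro a
  induction a with
  | zero => intro _; simp
  | succ a ih =>
    intro ha
    have hom0 : 0 ≤ om y z := om_nonneg y z
    have g1 : gg y z (k + 2 * a + 1 + 1) ≤ om y z * gg y z (k + 2 * a + 1) :=
      gg_succ (by omega)
    have g2 : gg y z (k + 2 * a + 1) ≤ om y z * gg y z (k + 2 * a) := gg_succ (by omega)
    have g3 := ih (by omega)
    calc gg y z (k + 2 * (a + 1)) = gg y z (k + 2 * a + 1 + 1) := by congr 1
      _ ≤ om y z * gg y z (k + 2 * a + 1) := g1
      _ ≤ om y z * (om y z * gg y z (k + 2 * a)) := mul_le_mul_of_nonneg_left g2 hom0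
      _ ≤ om y z * (om y z * ((om y z ^ 2) ^ a * gg y z k)) := by gcongr
      _ = _ := by ring

theorem one_le_D2 {m q M z y : ℕ} {P : Finset ℕ} (hm : 1 ≤ m) (hz : 2 ≤ z)
    (hy : 2 * (M / m) ≤ y) : 1 ≤ D2 m q M z y P := by
  unfold D2
  have h0 : (fun _ : P => 0) ∈ TB m q M z P := by
    unfold TB
    rw [Finset.mem_filter, Fintype.mem_piFinset]
    exact ⟨fun i => Finset.mem_insert_self _ _, by simp [cost]⟩
  have h1 : nz (fun _ : P => 0) = 0 := by
    unfold nz
    simp
  have h2 : wb2 m q y z (fun _ : P => 0) = 1 := by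
    unfold wb2
    rw [h1]
    simp [gg]
  rw [← h2]
  refine Finset.single_le_sum (f := fun r : P → ℕ => wb2 m q y z r) (fun r hr => ?_) h0
  unfold wb2
  have h3 := card_labels hm hz hr
  refine mul_nonneg (gg_nonneg (by omega)) (Finset.prod_nonneg fun i _ => ?_)
  split_ifs <;> positivity

theorem main (h : StmtTG2) : ∃ C : ℝ, 1 ≤ C ∧ ∃ E0 : ℕ, ∀ E z x y : ℕ, E0 ≤ E → Su E z x y →
    ∀ Q b : ℕ, Iq x y Q b → ∀ P : Finset ℕ, (P.card : ℝ) * om y z ^ 2 ≤ (E : ℝ) ^ 2 / 2 →
    ∀ J : Finset ℕ, J.card ≤ 2 → Disjoint P J → Sep y (P ∪ J) →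
    ∑ n ∈ (NQ x Q b).filter (fun n => ∀ j ∈ J, (n + j).Prime ∧ Rg y z (n + j + 2)),
        Wt2 E z y P n ^ 2
      ≤ C * (XQ x Q * Dt2 E z y P) * (om y z ^ 2 / E) ^ J.card := by
  obtain ⟨c, hc, E1, hTG⟩ := h
  obtain ⟨c2, hc2, E2, hVP⟩ := Pool.Agent.Helper88.CG.vp
  obtain ⟨E4, hsz⟩ := size
  obtain ⟨cA, CA, hcA, hCA, hMA⟩ := Pool.Agent.Helper24.PP.ma
  obtain ⟨co, hco, hom⟩ := Pool.Agent.Helper74.PP.om_lower
  obtain ⟨E3, hE3⟩ := sizes c hc
  have hC0 : 0 ≤ 64 / cA := by positivity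
  refine ⟨(64 / cA + 1) ^ 2 + 1, by nlinarith, max E4 (max (max E1 E2) (max E3 64)), ?_⟩
  intro E z x y hE hSr Q b hIq P hPo J hJ2 hPJ hSep
  have hEE4 : E4 ≤ E := (le_max_left _ _).trans hE
  replace hE := (le_max_right _ _).trans hE
  obtain ⟨z1, z2, z3, z4, z5, z6, z7, z8, z9, z10, z11, z12, z13, z14⟩ := hsz E z x y hEE4 hSr
  have hEE1 : E1 ≤ E := ((le_max_left _ _).trans (le_max_left _ _)).trans hE
  have hEE2 : E2 ≤ E := ((le_max_right _ _).trans (le_max_left _ _)).trans hE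
  have hEE3 : E3 ≤ E := ((le_max_left _ _).trans (le_max_right _ _)).trans hE
  have hE64 : 64 ≤ E := ((le_max_right _ _).trans (le_max_right _ _)).trans hE
  obtain ⟨v1, v2, v3, v4, v5, v6⟩ := hVP E hEE2
  have hEr : (64 : ℝ) ≤ E := by exact_mod_cast hE64
  have hE0 : (0 : ℝ) < E := by linarith
  have hz2 : 2 ≤ z := by omega
  obtain ⟨w1, w2⟩ := v6 z hz2
  set m := mE E with hm
  set q := qE E with hq
  set M := E / 16 with hM
  set V := E / 32 with hVd
  have hq1 : 1 ≤ q := by
    rw [hq]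
    exact Nat.one_le_two_pow
  have hqm : q * m ≤ M := by
    refine le_trans ?_ v2
    refine Nat.mul_le_mul_right _ ?_
    nlinarith
  have hV1 : 1 ≤ V := by omega
  have hV2 : 2 ≤ V := by omega
  have h2V : 2 * V ≤ M := by omega
  have hzE : z ^ E ≤ x := hSr.2.1
  have hzV : z ^ V ≤ x := (Nat.pow_le_pow_right (by omega) (by omega)).trans hzE
  have hK : (M / m + 2) ^ 3 ≤ E := by
    refine le_trans ?_ v4
    calc (M / m + 2) ^ 3 ≤ (2 * (M / m + 2)) ^ 3 := Nat.pow_le_pow_left (by omega) 3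
      _ ≤ (2 * (M / m + 2)) ^ 6 := Nat.pow_le_pow_right (by positivity) (by norm_num)
  have hK1 : 2 * (M / m + 2) ≤ y := by
    have h1 : M / m + 2 ≤ (M / m + 2) ^ 3 := Nat.le_self_pow (by norm_num) _
    have h2 : 2 * E ≤ E ^ 2 := by nlinarith
    omega
  have homz := hom y z hz2
  have hom0 : 0 ≤ om y z := om_nonneg y z
  have hXI : 0 ≤ XQ x Q := by
    unfold XQ XI
    positivity
  have hyM : 2 * (M / m) ≤ y := by omega
  have hDt1 : 1 ≤ Dt2 E z y P := one_le_D2 v1 hz2 hyM
  -- the data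
  set P' : Finset ℕ := P ∪ J with hP'
  have hP'c : P'.card ≤ P.card + 2 := by
    have := Finset.card_union_le P J
    rw [hP']
    omega
  have hom2 : om y z ^ 2 ≤ 1 := by nlinarith [homz.2]
  have hP'o : (P'.card : ℝ) * om y z ^ 2 ≤ (E : ℝ) ^ 2 := by
    have h1 : (P'.card : ℝ) ≤ P.card + 2 := by exact_mod_cast hP'c
    calc (P'.card : ℝ) * om y z ^ 2 ≤ (P.card + 2) * om y z ^ 2 :=
          mul_le_mul_of_nonneg_right h1 (by positivity)
      _ = P.card * om y z ^ 2 + 2 * om y z ^ 2 := by ring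
      _ ≤ (E : ℝ) ^ 2 / 2 + 2 * 1 := by linarith
      _ ≤ (E : ℝ) ^ 2 := by nlinarith
  set S : Finset ℕ := SS z (z ^ V) with hS
  have hS0 : ∀ s ∈ S, s ≠ 0 := by
    intro s hs
    simp only [hS, SS, mem_filter, mem_Ico] at hs
    omega
  set SJ : Finset (J → ℕ) := Fintype.piFinset (fun _ : J => S) with hSJ
  have hSJ0 : ∀ s ∈ SJ, ∀ i, s i ∈ S := fun s hs i => Fintype.mem_piFinset.1 hs i
  set Φ : (P → ℕ) × (J → ℕ) → (P' → ℕ) := fun u i => gl u.1 u.2 i with hΦ
  set T : Finset (P' → ℕ) := (TB m q M z P ×ˢ SJ).image Φ with hT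
  have hinj : Function.Injective Φ := by
    rintro ⟨r, s⟩ ⟨r', s'⟩ heq
    simp only [hΦ] at heq
    have e1 : s = s' := by
      funext i
      have e4 := congrFun heq ⟨i, Finset.mem_union_right _ i.2⟩
      simpa only [gl_J] using e4
    have e3 : r = r' := by
      funext i
      have e4 := congrFun heq ⟨i, Finset.mem_union_left _ i.2⟩
      simpa only [gl_P hPJ] using e4
    rw [e1, e3]
  set a : (P' → ℕ) → ℝ := fun r => ∏ i : P', cf J m q z V i (r i) with ha
  have haΦ : ∀ r s, a (Φ (r, s)) =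
      (∏ i : P, (if r i = 0 then 1 else - ab m q z (r i))) *
        ∏ i : J, 1 / (VM V z * (Nat.totient (s i) : ℝ)) := by
    intro r s
    simp only [ha, hΦ]
    refine (prod_gl hPJ (fun v i => cf J m q z V i v) r s).trans ?_
    congr 1
    · refine Finset.prod_congr rfl fun i _ => ?_
      simp [cf, Finset.disjoint_left.1 hPJ i.2]
    · refine Finset.prod_congr rfl fun i _ => ?_
      simp [cf]
  -- the function
  have hfun : ∀ n, ∑ r ∈ T, a r * ∏ i, vR (R2 y z) (r i) (n + (i : ℕ)) =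
      (∏ i : J, ∑ t ∈ S, 1 / (VM V z * (Nat.totient t : ℝ)) * vR (R2 y z) t (n + (i : ℕ))) *
      W2 m q M z y P n := by
    intro n
    rw [hT, Finset.sum_image (fun _ _ _ _ h => hinj h), Finset.sum_product, W2_eq,
      Finset.mul_sum]
    refine Finset.sum_congr rfl fun r _ => ?_
    rw [Finset.prod_univ_sum, Finset.sum_mul]
    refine Finset.sum_congr rfl fun s _ => ?_
    rw [haΦ]
    have h1 := prod_gl hPJ (fun v i => vR (R2 y z) v (n + i)) r s
    simp only [hΦ]
    rw [h1, Finset.prod_mul_distrib]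
    ring
  have hVM1 : 1 ≤ VM V z := VM_ge_one hV1 hz2
  have hVM0 : VM V z ≠ 0 := by linarith
  have hone : ∀ k : ℕ, (∀ s ∈ S, vR (R2 y z) s k = 1) →
      ∑ s ∈ S, 1 / (VM V z * (Nat.totient s : ℝ)) * vR (R2 y z) s k = 1 := by
    intro k hk
    have h1 : ∀ s ∈ S, 1 / (VM V z * (Nat.totient s : ℝ)) * vR (R2 y z) s k =
        1 / VM V z * (1 / (Nat.totient s : ℝ)) := by
      intro s hs
      rw [hk s hs, mul_one, one_div_mul_one_div]
    rw [Finset.sum_congr rfl h1, ← Finset.mul_sum]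
    show 1 / VM V z * VM V z = 1
    exact one_div_mul_cancel hVM0
  -- the values at the primes
  have hval : ∀ n j : ℕ, x < n → (n + j).Prime → Rg y z (n + j + 2) → ∀ s ∈ S,
      vR (R2 y z) s (n + j) = 1 := by
    intro n j hn hp hr s hs
    have h1 : vv y z s (n + j) = 1 := Pool.Agent.Helper59.RR.vv_one hV2 hz2 hp
      (n := n) (by omega) (by omega) hs
    have h2 := hS0 s hs
    unfold vv at h1
    rw [if_neg h2] at h1
    have h3 : Rg y z (n + j) := by
      by_contra h4
      rw [if_neg h4] at h1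
      exact zero_ne_one h1
    rw [if_pos h3] at h1
    unfold vR
    rw [if_neg h2, if_pos ⟨h3, hr⟩, h1]
  -- the second moment
  set F : Finset P' := univ.filter (fun i : P' => (i : ℕ) ∈ J) with hF
  have hFc2 : F.card = J.card := by
    rw [← Finset.card_image_of_injective F (Subtype.val_injective)]
    congr 1
    ext i
    rw [mem_image]
    constructor
    · rintro ⟨i', hi', rfl⟩
      rw [hF, mem_filter] at hi'
      exact hi'.2
    · intro hi
      exact ⟨⟨i, Finset.mem_union_right _ hi⟩, by rw [hF, mem_filter]; exact ⟨mem_univ _, hi⟩, rfl⟩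
  have hmemT : ∀ r' ∈ T, ∃ r s, r ∈ TB m q M z P ∧ s ∈ SJ ∧ r' = Φ (r, s) := by
    intro r' hr'
    rw [hT, mem_image] at hr'
    obtain ⟨⟨r, s⟩, hrs, rfl⟩ := hr'
    rw [mem_product] at hrs
    exact ⟨r, s, hrs.1, hrs.2, rfl⟩
  have hTG' := hTG E z x y hEE1 hSr Q b hIq m q (M / m + 2) V v1 hqm w1 hK
    le_rfl (by omega) P' hSep hP'o T a F ∅ (by omega) (by simp) (by simp) ?_ ?_ (by simp) ?_ ?_ ?_
  · -- conclusion
    have hmain : ∑ r ∈ T, a r ^ 2 *
        (gg y z (2 * nz r) * ∏ i, (if r i = 0 then 1 else (Nat.totient (r i) : ℝ))) ≤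
        (om y z ^ 2) ^ J.card * Dt2 E z y P / VM V z ^ J.card := by
      rw [hT, Finset.sum_image (fun _ _ _ _ h => hinj h), Finset.sum_product]
      have hterm : ∀ r ∈ TB m q M z P, ∀ s ∈ SJ, a (Φ (r, s)) ^ 2 *
          (gg y z (2 * nz (Φ (r, s))) * ∏ i, (if Φ (r, s) i = 0 then 1 else
            (Nat.totient (Φ (r, s) i) : ℝ))) =
          (gg y z (2 * nz r + 2 * J.card) * ∏ i : P,
            (if r i = 0 then 1 else ab m q z (r i) ^ 2 * (Nat.totient (r i) : ℝ))) *
          ∏ i : J, (1 / VM V z ^ 2 * (1 / (Nat.totient (s i) : ℝ))) := by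
        intro r hr s hs
        have hφ : ∀ v ∈ S, (Nat.totient v : ℝ) ≠ 0 := by
          intro v hv
          have : 0 < Nat.totient v := Nat.totient_pos.mpr (Nat.pos_of_ne_zero (hS0 v hv))
          exact_mod_cast this.ne'
        have h1 := nz_gl hPJ r s (fun i => hS0 _ (hSJ0 s hs i))
        have h2 := prod_gl hPJ (fun v _ => if v = 0 then (1 : ℝ) else (Nat.totient v : ℝ)) r s
        rw [haΦ]
        simp only [hΦ]
        rw [h1, h2, Nat.mul_add]
        have e3 : (∏ i : P, (if r i = 0 then (1 : ℝ) else - ab m q z (r i))) ^ 2 *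
            ∏ i : P, (if r i = 0 then (1 : ℝ) else (Nat.totient (r i) : ℝ))
            = ∏ i : P, (if r i = 0 then (1 : ℝ) else
              ab m q z (r i) ^ 2 * (Nat.totient (r i) : ℝ)) := by
          rw [← Finset.prod_pow, ← Finset.prod_mul_distrib]
          refine Finset.prod_congr rfl fun i _ => ?_
          split_ifs <;> ring
        have e4 : (∏ i : J, 1 / (VM V z * (Nat.totient (s i) : ℝ))) ^ 2 *
            ∏ i : J, (if s i = 0 then (1 : ℝ) else (Nat.totient (s i) : ℝ))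
            = ∏ i : J, (1 / VM V z ^ 2 * (1 / (Nat.totient (s i) : ℝ))) := by
          rw [← Finset.prod_pow, ← Finset.prod_mul_distrib]
          refine Finset.prod_congr rfl fun i _ => ?_
          rw [if_neg (hS0 _ (hSJ0 s hs i))]
          have f1 := hφ _ (hSJ0 s hs i)
          field_simp
        rw [← e3, ← e4]
        ring
      rw [Finset.sum_congr rfl fun r hr => Finset.sum_congr rfl fun s hs => hterm r hr s hs]
      have hS1 : ∑ s ∈ S, 1 / VM V z ^ 2 * (1 / (Nat.totient s : ℝ)) = 1 / VM V z := by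
        rw [← Finset.mul_sum]
        show 1 / VM V z ^ 2 * VM V z = _
        field_simp
      have hsum : ∑ s ∈ SJ, ∏ i : J, (1 / VM V z ^ 2 * (1 / (Nat.totient (s i) : ℝ))) =
          1 / VM V z ^ J.card := by
        have h1 := Finset.prod_univ_sum (fun _ : J => S)
          (fun _ t => 1 / VM V z ^ 2 * (1 / (Nat.totient t : ℝ)))
        rw [hSJ, ← h1, hS1, Finset.prod_const, Finset.card_univ, Fintype.card_coe, one_div_pow]
      rw [Finset.sum_congr rfl fun r _ => (Finset.mul_sum _ _ _).symm, hsum, ← Finset.sum_mul,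
        mul_one_div]
      refine div_le_div_of_nonneg_right ?_ (by positivity)
      unfold Dt2 D2
      rw [Finset.mul_sum]
      refine Finset.sum_le_sum fun r hr => ?_
      unfold wb2
      have h2 := card_labels v1 hz2 hr
      have g3 : gg y z (2 * nz r + 2 * J.card) ≤ (om y z ^ 2) ^ J.card * gg y z (2 * nz r) :=
        gg_two _ (by omega)
      rw [← mul_assoc]
      refine mul_le_mul_of_nonneg_right g3 (Finset.prod_nonneg fun i _ => ?_)
      split_ifs <;> positivity
    have hstep : ∑ n ∈ (NQ x Q b).filter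
          (fun n => ∀ j ∈ J, (n + j).Prime ∧ Rg y z (n + j + 2)),
        Wt2 E z y P n ^ 2 ≤
        ∑ n ∈ NQ x Q b, (∑ r ∈ T, a r * ∏ i, vR (R2 y z) (r i) (n + (i : ℕ))) ^ 2 := by
      rw [Finset.sum_filter]
      refine Finset.sum_le_sum fun n hn => ?_
      split_ifs with hpr
      · have hnx : x < n := by
          unfold NQ NI at hn
          rw [mem_filter, mem_Ioc] at hn
          exact hn.1.1
        have h1 : ∏ i : J, ∑ t ∈ S, 1 / (VM V z * (Nat.totient t : ℝ)) *
            vR (R2 y z) t (n + (i : ℕ)) = 1 :=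
          Finset.prod_eq_one fun i _ => hone _ fun s hs =>
            hval n i hnx (hpr i i.2).1 (hpr i i.2).2 s hs
        rw [hfun, h1, one_mul]
        exact le_rfl
      · exact sq_nonneg _
    have hEk : 1 / (E : ℝ) ^ 2 ≤ (1 / (E : ℝ)) ^ J.card := by
      have h1 : (1 / (E : ℝ)) ^ 2 ≤ (1 / (E : ℝ)) ^ J.card :=
        pow_le_pow_of_le_one (by positivity) (by rw [div_le_one hE0]; linarith) hJ2
      rwa [one_div_pow (E : ℝ) 2] at h1
    have herr : Real.exp (-(c * E)) * (om y z ^ 2) ^ J.card ≤ (om y z ^ 2 / E) ^ J.card := by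
      calc Real.exp (-(c * E)) * (om y z ^ 2) ^ J.card
          ≤ (1 / (E : ℝ)) ^ J.card * (om y z ^ 2) ^ J.card :=
            mul_le_mul_of_nonneg_right ((hE3 E hEE3).trans hEk) (by positivity)
        _ = (om y z ^ 2 / E) ^ J.card := by rw [← mul_pow]; congr 1; ring
    rw [hFc2, Finset.card_empty, Nat.add_zero] at hTG'
    have hVMl : cA * E / 64 ≤ VM V z := by
      have h1 := (hMA z V hz2 hV1).1
      have h3 : (E : ℝ) / 64 ≤ V := by
        have : E ≤ 64 * V := by omega
        have h4 : (E : ℝ) ≤ 64 * V := by exact_mod_cast this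
        linarith
      calc cA * E / 64 = cA * (E / 64) := by ring
        _ ≤ cA * V := mul_le_mul_of_nonneg_left h3 hcA.le
        _ ≤ _ := h1
    have h1 := (abs_le.mp hTG').2
    have hk2 : (64 / cA) ^ J.card ≤ (64 / cA + 1) ^ 2 := by
      calc (64 / cA) ^ J.card ≤ (64 / cA + 1) ^ J.card :=
            pow_le_pow_left₀ hC0 (by linarith) _
        _ ≤ (64 / cA + 1) ^ 2 := pow_le_pow_right₀ (by linarith) hJ2
    have h3 : (om y z ^ 2) ^ J.card * Dt2 E z y P / VM V z ^ J.card ≤
        (64 / cA + 1) ^ 2 * (Dt2 E z y P * (om y z ^ 2 / E) ^ J.card) := by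
      calc (om y z ^ 2) ^ J.card * Dt2 E z y P / VM V z ^ J.card
          ≤ (om y z ^ 2) ^ J.card * Dt2 E z y P / (cA * E / 64) ^ J.card := by
            gcongr
        _ = (64 / cA) ^ J.card * (Dt2 E z y P * (om y z ^ 2 / E) ^ J.card) := by
            rw [div_pow, div_pow, div_pow, mul_pow]
            field_simp
        _ ≤ _ := mul_le_mul_of_nonneg_right hk2 (by positivity)
    have h4 := mul_le_mul_of_nonneg_left (hmain.trans h3) hXI
    have h5 : Real.exp (-(c * E)) * (om y z ^ 2) ^ J.card * XQ x Q ≤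
        XQ x Q * Dt2 E z y P * (om y z ^ 2 / E) ^ J.card := by
      calc Real.exp (-(c * E)) * (om y z ^ 2) ^ J.card * XQ x Q ≤
            (om y z ^ 2 / E) ^ J.card * XQ x Q := mul_le_mul_of_nonneg_right herr hXI
        _ = XQ x Q * 1 * (om y z ^ 2 / E) ^ J.card := by ring
        _ ≤ _ := by gcongr
    calc _ ≤ _ := hstep
      _ ≤ XQ x Q * ∑ r ∈ T, a r ^ 2 *
          (gg y z (2 * nz r) * ∏ i, (if r i = 0 then 1 else (Nat.totient (r i) : ℝ))) +
          Real.exp (-(c * E)) * (om y z ^ 2) ^ J.card * XQ x Q := by linarith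
      _ ≤ XQ x Q * ((64 / cA + 1) ^ 2 * (Dt2 E z y P * (om y z ^ 2 / E) ^ J.card)) +
          XQ x Q * Dt2 E z y P * (om y z ^ 2 / E) ^ J.card := add_le_add h4 h5
      _ = _ := by ring
  · intro r' hr' i hi _
    obtain ⟨r, s, hr, hs, rfl⟩ := hmemT r' hr'
    rw [hF, mem_filter] at hi
    push Not at hi
    have hi2 := hi (mem_univ _)
    simp only [hΦ, gl, dif_neg hi2]
    split_ifs with hiP
    · have h1 := hr
      simp only [TB, mem_filter, Fintype.mem_piFinset, mem_insert] at h1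
      exact h1.1 ⟨i, hiP⟩
    · exact Or.inl rfl
  · intro r' hr' i hi
    obtain ⟨r, s, hr, hs, rfl⟩ := hmemT r' hr'
    rw [hF, mem_filter] at hi
    simp only [hΦ, gl, dif_pos hi.2]
    exact hSJ0 s hs _
  · intro r' hr'
    obtain ⟨r, s, hr, hs, rfl⟩ := hmemT r' hr'
    have h1 := nz_gl hPJ r s (fun i => hS0 _ (hSJ0 s hs i))
    have h2 := card_labels v1 hz2 hr
    simp only [hΦ]
    rw [h1]
    omega
  · intro r' hr'
    obtain ⟨r, s, hr, hs, rfl⟩ := hmemT r' hr'
    have h1 := prod_gl hPJ (fun v _ => max 1 v) r s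
    have h2 := prod_labels hz2 hr
    simp only [hΦ]
    rw [h1]
    have hs' : ∏ i : J, max 1 (s i) ≤ (z ^ V) ^ 2 := by
      calc ∏ i : J, max 1 (s i) ≤ ∏ _i : J, z ^ V := by
            refine Finset.prod_le_prod' fun i _ => ?_
            have := hSJ0 s hs i
            simp only [hS, SS, mem_filter, mem_Ico] at this
            omega
        _ = (z ^ V) ^ J.card := by
            rw [Finset.prod_const, Finset.card_univ, Fintype.card_coe]
        _ ≤ (z ^ V) ^ 2 := Nat.pow_le_pow_right (by positivity) hJ2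
    calc (∏ i, max 1 (r i)) * ∏ i : J, max 1 (s i) ≤ z ^ M * (z ^ V) ^ 2 :=
          Nat.mul_le_mul h2 hs'
      _ = z ^ (M + V * 2) := by rw [← pow_mul, ← pow_add]
      _ ≤ z ^ (2 * (E / 16)) := Nat.pow_le_pow_right (by omega) (by omega)
  · intro r' hr'
    simp only [ha]
    rw [Finset.abs_prod]
    refine Finset.prod_le_prod (fun i _ => abs_nonneg _) fun i _ => ?_
    by_cases hi : i ∈ F
    · rw [if_pos hi]
      rw [hF, mem_filter] at hi
      unfold cf
      rw [if_pos hi.2, abs_of_nonneg (by have := VM_nonneg V z; positivity)]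
    · rw [if_neg hi, if_neg (by simp)]
      have hi2 : ¬ ((i : ℕ) ∈ J) := fun h => hi (by rw [hF, mem_filter]; exact ⟨mem_univ _, h⟩)
      unfold cf
      rw [if_neg hi2]
      split_ifs
      · simp
      · rw [abs_neg, abs_of_nonneg (ab_nonneg _ _ _ _)]

theorem TB_empty (m q M z : ℕ) : TB m q M z ∅ = {fun _ => 0} := by
  ext r
  have hr : r = fun _ => 0 := funext fun i => absurd i.2 (Finset.notMem_empty _)
  rw [mem_singleton]
  refine ⟨fun _ => hr, fun _ => ?_⟩
  unfold TB
  rw [Finset.mem_filter, Fintype.mem_piFinset]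
  refine ⟨fun i => absurd i.2 (Finset.notMem_empty _), ?_⟩
  rw [hr]
  simp [cost]

theorem bt2 (h1 : StmtTG2) : Pool.Agent.Helper76.TW.StmtBT2 := by
  obtain ⟨C, hC, E0, hE0⟩ := main h1
  refine ⟨C, hC, E0, fun E z x y hE hSu Q b hIq => ⟨?_, ?_, ?_⟩⟩
  · intro j hj1 hj2
    have h2 := hE0 E z x y hE hSu Q b hIq ∅ (by simp; positivity) {j} (by simp) (by simp) (by
      rw [Finset.empty_union]
      refine ⟨fun i hi => ?_, fun i hi i' hi' => ?_⟩
      · rw [mem_singleton] at hi
        omega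
      · rw [mem_singleton] at hi hi'
        omega)
    have h3 : ∀ n, Wt2 E z y ∅ n = 1 := by
      intro n
      unfold Wt2 W2
      rw [TB_empty]
      simp
    have h4 : Dt2 E z y ∅ = 1 := by
      unfold Dt2 D2
      rw [TB_empty]
      simp [wb2, nz, gg]
    simp only [h3, h4, one_pow, Finset.sum_const, nsmul_eq_mul, mul_one, Finset.mem_singleton,
      forall_eq, Finset.card_singleton, pow_one] at h2
    rw [mul_assoc] at h2
    exact h2
  · intro P hP j hj hSep
    have h2 := hE0 E z x y hE hSu Q b hIq P hP {j} (by simp)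
      (Finset.disjoint_singleton_right.2 hj) (by
      rw [Finset.union_comm, ← Finset.insert_eq]
      exact hSep)
    simp only [Finset.mem_singleton, forall_eq, Finset.card_singleton, pow_one] at h2
    exact h2
  · intro P hP j j' hj hj' hjj hSep
    have h2 := hE0 E z x y hE hSu Q b hIq P hP {j, j'} (Finset.card_pair hjj).le (by
      rw [Finset.disjoint_left]
      intro i hi hi'
      rw [mem_insert, mem_singleton] at hi'
      rcases hi' with rfl | rfl
      · exact hj hi
      · exact hj' hi) (by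
      have h3 : P ∪ {j, j'} = insert j (insert j' P) := by
        ext i
        simp only [mem_union, mem_insert, mem_singleton]
        tauto
      rw [h3]
      exact hSep)
    rw [Finset.card_pair hjj] at h2
    simp only [Finset.mem_insert, Finset.mem_singleton, forall_eq_or_imp, forall_eq] at h2
    exact h2

end Pool.Agent.Helper14.TW
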